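import Mathlib

/-!
# Chromatic number of graphs with hereditary independence ratio 1/3: definitions

`ad G` is the adjacency matrix, `m` are masses in `[0,1]` on the vertices, `Sup G m r` says that
the matrix `√m (ad G) √m` has a positive supersolution of level `r` (its norm is at most `r`).
`ω` is a symmetric flow with row sums at most `μ` (a reversible sub-Markov chain).
-/

namespace Pool.Agent.Helper39.HR

open Finset
open scoped Classical

noncomputable section

/-- hereditary independence ratio at least `1/3` -/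
def Her {V : Type} (G : SimpleGraph V) : Prop :=
  ∀ S : Finset V, ∃ I : Finset V, I ⊆ S ∧ G.IsIndepSet (I : Set V) ∧ S.card ≤ 3 * I.card

/-- the adjacency matrix -/
def ad {V : Type} (G : SimpleGraph V) (x y : V) : ℝ := if G.Adj x y then 1 else 0

/-- the masses `m` have a positive supersolution of level `r` -/
def Sup {V : Type} [Fintype V] (G : SimpleGraph V) (m : V → ℝ) (r : ℝ) : Prop :=
  ∃ ψ : V → ℝ, (∀ x, 0 < ψ x) ∧ ∀ x, ∑ y, ad G x y * (m y * ψ y) ≤ r * ψ x

/-- a symmetric flow with row sums at most `μ` -/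
structure Ker {V : Type} [Fintype V] (ω : V → V → ℝ) (μ : V → ℝ) : Prop where
  symm : ∀ x y, ω x y = ω y x
  nn : ∀ x y, 0 ≤ ω x y
  dg : ∀ x, ω x x = 0
  row : ∀ x, ∑ y, ω x y ≤ μ x

/-- flow between two sets -/
def fl {V : Type} (ω : V → V → ℝ) (A B : Finset V) : ℝ := ∑ x ∈ A, ∑ y ∈ B, ω x y

/-- mass of a set -/
def ms {V : Type} (μ : V → ℝ) (A : Finset V) : ℝ := ∑ x ∈ A, μ x

/-- quadratic form of the flow -/
def qf {V : Type} [Fintype V] (ω : V → V → ℝ) (f : V → ℝ) : ℝ := ∑ x, ∑ y, ω x y * (f x * f y)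

/-- `g` is a minimiser of
`∑ ω (g g' + (1-g)(1-g')) + l ∑ μ (g^2 + (1-g)^2)` on `[0,1]^V`: first and second order conditions -/
structure Bal {V : Type} [Fintype V] (ω : V → V → ℝ) (μ : V → ℝ) (l : ℝ) (g : V → ℝ) : Prop where
  nn : ∀ x, 0 ≤ g x
  le : ∀ x, g x ≤ 1
  kkt : ∀ x, 0 < g x → ∑ y, ω x y * g y ≤ μ x * ((1 + l) / 2 - l * g x)
  kkt' : ∀ x, g x < 1 → ∑ y, ω x y * (1 - g y) ≤ μ x * ((1 + l) / 2 - l * (1 - g x))
  sec : ∀ η : V → ℝ, (∀ x, |η x| ≤ g x) → (∀ x, |η x| ≤ 1 - g x) →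
    -(l * ∑ x, μ x * η x ^ 2) ≤ qf ω η

end

end Pool.Agent.Helper39.HR
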