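import Pool.Agent.Helper39.HR.Stmts

/-!
# Module 3: the reverse inequality
-/

namespace Pool.Agent.Helper39.HR

open Finset
open scoped Classical

noncomputable section

lemma Ker.mu_nonneg {V : Type} [Fintype V] {ω : V → V → ℝ} {μ : V → ℝ} (h : Ker ω μ) (x : V) :
    0 ≤ μ x :=
  (Finset.sum_nonneg (fun y _ => h.nn x y)).trans (h.row x)

theorem st_rev : ST_REV := by
  intro V _ ω μ l g h hK hl hB _
  set k : V → ℝ := fun x => 2 * g x / l + 1 with hk
  have hk0 : ∀ x, 0 < k x := by
    intro x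
    have := hB.nn x
    rw [hk]
    positivity
  -- pointwise
  have h1 : ∀ x y, ω x y * ((g x * h x) * (g y * h y))
      ≤ ω x y * ((g x * h x) ^ 2 / k x * k y) / 2 + ω x y * ((g y * h y) ^ 2 / k y * k x) / 2 := by
    intro x y
    have hx := hk0 x
    have hy := hk0 y
    have h2 : (g x * h x) * (g y * h y)
        ≤ (g x * h x) ^ 2 / k x * k y / 2 + (g y * h y) ^ 2 / k y * k x / 2 := by
      have h3 : (g x * h x) ^ 2 / k x * k y / 2 + (g y * h y) ^ 2 / k y * k x / 2
          - (g x * h x) * (g y * h y)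
          = ((g x * h x) * k y - (g y * h y) * k x) ^ 2 / (2 * (k x * k y)) := by
        field_simp
        ring
      have h4 : 0 ≤ ((g x * h x) * k y - (g y * h y) * k x) ^ 2 / (2 * (k x * k y)) := by
        positivity
      linarith
    have h5 := mul_le_mul_of_nonneg_left h2 (hK.nn x y)
    calc ω x y * ((g x * h x) * (g y * h y)) ≤ _ := h5
      _ = _ := by ring
  have h2 : qf ω (fun x => g x * h x) ≤ ∑ x, ∑ y, ω x y * ((g x * h x) ^ 2 / k x * k y) := by
    unfold qf
    have h3 : ∑ x, ∑ y, ω x y * ((g x * h x) * (g y * h y))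
        ≤ ∑ x, ∑ y, (ω x y * ((g x * h x) ^ 2 / k x * k y) / 2
          + ω x y * ((g y * h y) ^ 2 / k y * k x) / 2) :=
      Finset.sum_le_sum (fun x _ => Finset.sum_le_sum (fun y _ => h1 x y))
    refine h3.trans (le_of_eq ?_)
    simp only [Finset.sum_add_distrib]
    have h4 : ∑ x, ∑ y, ω x y * ((g y * h y) ^ 2 / k y * k x) / 2
        = ∑ x, ∑ y, ω x y * ((g x * h x) ^ 2 / k x * k y) / 2 := by
      rw [Finset.sum_comm]
      refine Finset.sum_congr rfl (fun x _ => Finset.sum_congr rfl (fun y _ => ?_))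
      rw [hK.symm y x]
    rw [h4, ← Finset.sum_add_distrib]
    refine Finset.sum_congr rfl (fun x _ => ?_)
    rw [← Finset.sum_add_distrib]
    exact Finset.sum_congr rfl (fun y _ => by ring)
  have h3 : ∀ x, ∑ y, ω x y * ((g x * h x) ^ 2 / k x * k y)
      ≤ μ x * g x * h x ^ 2 * (1 / 2 - 2 * l / (l + 2) * (g x - 1 / 2) ^ 2) := by
    intro x
    have hμ := hK.mu_nonneg x
    rcases (hB.nn x).eq_or_lt with hg | hg
    · have : ∀ y, ω x y * ((g x * h x) ^ 2 / k x * k y) = 0 := by
        intro y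
        rw [← hg]
        ring
      rw [Finset.sum_congr rfl (fun y _ => this y), ← hg]
      simp
    · have hle := hB.le x
      have e1 : ∑ y, ω x y * ((g x * h x) ^ 2 / k x * k y)
          = (g x * h x) ^ 2 / k x * (2 / l * (∑ y, ω x y * g y) + ∑ y, ω x y) := by
        rw [Finset.mul_sum, ← Finset.sum_add_distrib, Finset.mul_sum]
        refine Finset.sum_congr rfl (fun y _ => ?_)
        rw [hk]
        ring
      have e2 : 2 / l * (∑ y, ω x y * g y) + ∑ y, ω x y
          ≤ 2 / l * (μ x * ((1 + l) / 2 - l * g x)) + μ x :=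
        add_le_add (mul_le_mul_of_nonneg_left (hB.kkt x hg) (by positivity)) (hK.row x)
      have hk1 : k x = (2 * g x + l) / l := by
        rw [hk]
        field_simp
      have hkx := hk0 x
      have e3 : (g x * h x) ^ 2 / k x * (2 / l * (μ x * ((1 + l) / 2 - l * g x)) + μ x)
          = μ x * g x * h x ^ 2 * (g x * (1 + 2 * l - 2 * l * g x) / (2 * g x + l)) := by
        rw [hk1]
        have : 2 * g x + l ≠ 0 := by positivity
        field_simp
        ring
      have e4 : g x * (1 + 2 * l - 2 * l * g x) / (2 * g x + l)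
          ≤ 1 / 2 - 2 * l / (l + 2) * (g x - 1 / 2) ^ 2 := by
        have hp : 0 < 2 * g x + l := by positivity
        rw [div_le_iff₀ hp]
        have e5 : g x * (1 + 2 * l - 2 * l * g x)
            = 1 / 2 * (2 * g x + l) - 2 * l * (g x - 1 / 2) ^ 2 := by ring
        have e6 : 2 * l / (l + 2) * (g x - 1 / 2) ^ 2 * (2 * g x + l)
            ≤ 2 * l * (g x - 1 / 2) ^ 2 := by
          have e7 : 2 * l / (l + 2) * (g x - 1 / 2) ^ 2 * (2 * g x + l)
              ≤ 2 * l / (l + 2) * (g x - 1 / 2) ^ 2 * (l + 2) :=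
            mul_le_mul_of_nonneg_left (by linarith) (by positivity)
          have e8 : 2 * l / (l + 2) * (g x - 1 / 2) ^ 2 * (l + 2)
              = 2 * l * (g x - 1 / 2) ^ 2 := by
            have : l + 2 ≠ 0 := by positivity
            field_simp
          linarith
        rw [e5]
        linarith
      rw [e1]
      calc (g x * h x) ^ 2 / k x * (2 / l * (∑ y, ω x y * g y) + ∑ y, ω x y)
          ≤ (g x * h x) ^ 2 / k x * (2 / l * (μ x * ((1 + l) / 2 - l * g x)) + μ x) :=
            mul_le_mul_of_nonneg_left e2 (by positivity)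
        _ = μ x * g x * h x ^ 2 * (g x * (1 + 2 * l - 2 * l * g x) / (2 * g x + l)) := e3
        _ ≤ _ := mul_le_mul_of_nonneg_left e4 (by positivity)
  calc qf ω (fun x => g x * h x) ≤ ∑ x, ∑ y, ω x y * ((g x * h x) ^ 2 / k x * k y) := h2
    _ ≤ ∑ x, μ x * g x * h x ^ 2 * (1 / 2 - 2 * l / (l + 2) * (g x - 1 / 2) ^ 2) :=
        Finset.sum_le_sum (fun x _ => h3 x)
    _ = _ := by
        rw [Finset.mul_sum, Finset.mul_sum, ← Finset.sum_sub_distrib]
        exact Finset.sum_congr rfl (fun x _ => by ring)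

end

end Pool.Agent.Helper39.HR
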