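import Pool.Agent.Helper39.HR.Rev

/-!
# Module 8: splitting with a gain
-/

namespace Pool.Agent.Helper39.HR

open Finset
open scoped Classical

noncomputable section

lemma Bal.compl {V : Type} [Fintype V] {ω : V → V → ℝ} {μ : V → ℝ} {l : ℝ} {g : V → ℝ}
    (h : Bal ω μ l g) : Bal ω μ l (fun x => 1 - g x) where
  nn := fun x => by have := h.le x; linarith
  le := fun x => by have := h.nn x; linarith
  kkt := fun x hx => h.kkt' x (by linarith)
  kkt' := fun x hx => by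
    have h1 := h.kkt x (by linarith)
    have h2 : ∑ y, ω x y * (1 - (1 - g y)) = ∑ y, ω x y * g y :=
      Finset.sum_congr rfl (fun y _ => by ring)
    rw [h2]
    have h3 : μ x * ((1 + l) / 2 - l * (1 - (1 - g x))) = μ x * ((1 + l) / 2 - l * g x) := by ring
    rw [h3]
    exact h1
  sec := fun η h1 h2 => h.sec η (fun x => by have := h2 x; linarith) h1

/-- the flow of a supersolution -/
def om {V : Type} (G : SimpleGraph V) (m ψ : V → ℝ) (r : ℝ) (x y : V) : ℝ :=
  ad G x y * ((m x * ψ x) * (m y * ψ y)) / r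

/-- its masses -/
def mu {V : Type} (m ψ : V → ℝ) (x : V) : ℝ := m x * ψ x ^ 2

lemma ad_nonneg {V : Type} (G : SimpleGraph V) (x y : V) : 0 ≤ ad G x y := by
  unfold ad
  split_ifs <;> norm_num

lemma ad_symm {V : Type} (G : SimpleGraph V) (x y : V) : ad G x y = ad G y x := by
  unfold ad
  rw [G.adj_comm]

lemma ad_self {V : Type} (G : SimpleGraph V) (x : V) : ad G x x = 0 := by
  unfold ad
  simp

lemma ker_om {V : Type} [Fintype V] (G : SimpleGraph V) (m ψ : V → ℝ) (r : ℝ) (hr : 0 < r)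
    (hm : ∀ x, 0 ≤ m x) (hψ : ∀ x, 0 < ψ x)
    (hs : ∀ x, ∑ y, ad G x y * (m y * ψ y) ≤ r * ψ x) : Ker (om G m ψ r) (mu m ψ) where
  symm := fun x y => by
    unfold om
    rw [ad_symm G x y]
    ring
  nn := fun x y => by
    unfold om
    have := ad_nonneg G x y
    have := hm x
    have := hm y
    have := (hψ x).le
    have := (hψ y).le
    positivity
  dg := fun x => by
    unfold om
    rw [ad_self]
    simp
  row := fun x => by
    have h1 : ∑ y, om G m ψ r x y = (m x * ψ x) / r * ∑ y, ad G x y * (m y * ψ y) := by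
      rw [Finset.mul_sum]
      refine Finset.sum_congr rfl (fun y _ => ?_)
      unfold om
      ring
    rw [h1]
    have h2 : 0 ≤ (m x * ψ x) / r := div_nonneg (mul_nonneg (hm x) (hψ x).le) hr.le
    have h3 := mul_le_mul_of_nonneg_left (hs x) h2
    have h4 : (m x * ψ x) / r * (r * ψ x) = mu m ψ x := by
      unfold mu
      field_simp
    linarith

lemma le_sqrt_mu {V : Type} (m ψ : V → ℝ) (hm : ∀ x, 0 ≤ m x) (hm1 : ∀ x, m x ≤ 1)
    (x : V) : m x * ψ x ≤ Real.sqrt (mu m ψ x) := by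
  refine Real.le_sqrt_of_sq_le ?_
  unfold mu
  have h1 := hm x
  have h2 := hm1 x
  have h3 : (m x * ψ x) ^ 2 = m x * (m x * ψ x ^ 2) := by ring
  have h4 : m x * (m x * ψ x ^ 2) ≤ 1 * (m x * ψ x ^ 2) :=
    mul_le_mul_of_nonneg_right h2 (by positivity)
  linarith

lemma om_le {V : Type} (G : SimpleGraph V) (m ψ : V → ℝ) (r : ℝ) (hr : 0 < r)
    (hm : ∀ x, 0 ≤ m x) (hm1 : ∀ x, m x ≤ 1) (hψ : ∀ x, 0 < ψ x) (x y : V) :
    om G m ψ r x y ≤ ad G x y * (Real.sqrt (mu m ψ x) * Real.sqrt (mu m ψ y)) / r := by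
  unfold om
  have h1 : (m x * ψ x) * (m y * ψ y) ≤ Real.sqrt (mu m ψ x) * Real.sqrt (mu m ψ y) :=
    mul_le_mul (le_sqrt_mu m ψ hm hm1 x) (le_sqrt_mu m ψ hm hm1 y)
      (mul_nonneg (hm y) (hψ y).le) (Real.sqrt_nonneg _)
  have h2 := mul_le_mul_of_nonneg_left h1 (ad_nonneg G x y)
  exact div_le_div_of_nonneg_right h2 hr.le

/-- the ratio condition -/
lemma ratio_om {V : Type} [Fintype V] (G : SimpleGraph V) (m ψ : V → ℝ) (d r : ℝ) (hr : 0 < r)
    (hd : 0 < d) (hdeg : ∀ x, ∑ y, ad G x y ≤ d)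
    (hm : ∀ x, 0 ≤ m x) (hm1 : ∀ x, m x ≤ 1) (hψ : ∀ x, 0 < ψ x) (x : V) :
    ∑ y ∈ univ.filter (fun y => (100 * d / r) ^ 2 * mu m ψ y < mu m ψ x), om G m ψ r x y
      ≤ mu m ψ x / 100 := by
  have hmu : ∀ y, 0 ≤ mu m ψ y := fun y => by
    unfold mu
    have := hm y
    positivity
  have hk : 0 < 100 * d / r := by positivity
  have h1 : ∀ y ∈ univ.filter (fun y => (100 * d / r) ^ 2 * mu m ψ y < mu m ψ x),
      om G m ψ r x y ≤ ad G x y * (mu m ψ x / (100 * d)) := by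
    intro y hy
    have hy' := (Finset.mem_filter.mp hy).2
    have h2 : Real.sqrt (mu m ψ y) ≤ Real.sqrt (mu m ψ x) * (r / (100 * d)) := by
      have h3 : 100 * d / r * Real.sqrt (mu m ψ y) ≤ Real.sqrt (mu m ψ x) := by
        refine Real.le_sqrt_of_sq_le ?_
        rw [mul_pow, Real.sq_sqrt (hmu y)]
        exact hy'.le
      have h4 : Real.sqrt (mu m ψ y) = (100 * d / r * Real.sqrt (mu m ψ y)) * (r / (100 * d)) := by
        field_simp
      rw [h4]
      exact mul_le_mul_of_nonneg_right h3 (by positivity)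
    refine (om_le G m ψ r hr hm hm1 hψ x y).trans ?_
    have h5 : Real.sqrt (mu m ψ x) * Real.sqrt (mu m ψ y) ≤ mu m ψ x * (r / (100 * d)) := by
      calc Real.sqrt (mu m ψ x) * Real.sqrt (mu m ψ y)
          ≤ Real.sqrt (mu m ψ x) * (Real.sqrt (mu m ψ x) * (r / (100 * d))) :=
            mul_le_mul_of_nonneg_left h2 (Real.sqrt_nonneg _)
        _ = (Real.sqrt (mu m ψ x) * Real.sqrt (mu m ψ x)) * (r / (100 * d)) := by ring
        _ = mu m ψ x * (r / (100 * d)) := by rw [Real.mul_self_sqrt (hmu x)]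
    have h6 := mul_le_mul_of_nonneg_left h5 (ad_nonneg G x y)
    have h7 := div_le_div_of_nonneg_right h6 hr.le
    refine h7.trans (le_of_eq ?_)
    field_simp
  calc ∑ y ∈ univ.filter (fun y => (100 * d / r) ^ 2 * mu m ψ y < mu m ψ x), om G m ψ r x y
      ≤ ∑ y ∈ univ.filter (fun y => (100 * d / r) ^ 2 * mu m ψ y < mu m ψ x),
          ad G x y * (mu m ψ x / (100 * d)) := Finset.sum_le_sum h1
    _ ≤ ∑ y, ad G x y * (mu m ψ x / (100 * d)) := by
        refine Finset.sum_le_sum_of_subset_of_nonneg (Finset.filter_subset _ _) (fun y _ _ => ?_)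
        have := ad_nonneg G x y
        have := hmu x
        positivity
    _ = (∑ y, ad G x y) * (mu m ψ x / (100 * d)) := by rw [Finset.sum_mul]
    _ ≤ d * (mu m ψ x / (100 * d)) :=
        mul_le_mul_of_nonneg_right (hdeg x) (by have := hmu x; positivity)
    _ = mu m ψ x / 100 := by field_simp

/-- the hard core contradiction -/
lemma core_false {V : Type} [Fintype V] (hH : ST_HARD) (G : SimpleGraph V) (m ψ : V → ℝ)
    (d r κ : ℝ) (hG : Her G) (hr : 0 < r) (hd : 0 < d)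
    (hm : ∀ x, 0 ≤ m x) (hm1 : ∀ x, m x ≤ 1) (hψ : ∀ x, 0 < ψ x) (A : Finset V)
    (hA : 0 < ms (mu m ψ) A) (hpos : ∀ x ∈ A, 0 < mu m ψ x)
    (hrat : ∀ x ∈ A, ∀ y ∈ A, mu m ψ x ≤ ((100 * d / r) ^ 2) ^ 2 * mu m ψ y)
    (hκ : 8 * (100 * d / r) ^ 4 < κ * r)
    (hC : ∀ C ⊆ A, ms (mu m ψ) A ≤ 41 * ms (mu m ψ) C →
      κ * ms (mu m ψ) A ≤ fl (om G m ψ r) C C) : False := by
  have hmu : ∀ y, 0 ≤ mu m ψ y := fun y => by
    unfold mu
    have := hm y
    positivity
  have hne : A.Nonempty := by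
    rw [Finset.nonempty_iff_ne_empty]
    intro h
    rw [h] at hA
    simp [ms] at hA
  obtain ⟨x0, hx0, hmax⟩ := Finset.exists_max_image A (mu m ψ) hne
  have hX := hpos x0 hx0
  set X := mu m ψ x0 with hXdef
  obtain ⟨C, hCA, hCp, hCd⟩ := hH V G A (fun x => mu m ψ x / X) hG
    (fun x _ => div_nonneg (hmu x) hX.le) (fun x hx => (div_le_one hX).mpr (hmax x hx))
    (by
      rw [← Finset.sum_div]
      exact div_pos hA hX)
  rw [← Finset.sum_div, ← Finset.sum_div] at hCp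
  have h1 : ms (mu m ψ) A ≤ 41 * ms (mu m ψ) C := by
    unfold ms
    have h2 : (∑ x ∈ A, mu m ψ x) / X / 41 = (∑ x ∈ A, mu m ψ x) / 41 / X := by
      field_simp
    rw [h2] at hCp
    have h3 := (div_le_div_iff_of_pos_right hX).mp hCp
    linarith
  have h2 := hC C hCA h1
  have hkd : 0 < 100 * d / r := by positivity
  set k := 100 * d / r with hk
  -- termwise
  have h3 : ∀ x ∈ C, ∀ y ∈ C, om G m ψ r x y
      ≤ k ^ 4 / r * mu m ψ x * (ad G x y * (mu m ψ y / X)) := by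
    intro x hx y hy
    have hxA := hCA hx
    have hyA := hCA hy
    refine (om_le G m ψ r hr hm hm1 hψ x y).trans ?_
    have h4 : Real.sqrt X ≤ k ^ 2 * Real.sqrt (mu m ψ x) := by
      rw [show k ^ 2 * Real.sqrt (mu m ψ x) = Real.sqrt ((k ^ 2) ^ 2 * mu m ψ x) by
        rw [Real.sqrt_mul (by positivity), Real.sqrt_sq (by positivity)]]
      exact Real.sqrt_le_sqrt (hrat x0 hx0 x hxA)
    have h5 : Real.sqrt (mu m ψ y) ≤ k ^ 2 * (mu m ψ y / X) * Real.sqrt X := by
      have h6 : Real.sqrt X ≤ k ^ 2 * Real.sqrt (mu m ψ y) := by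
        rw [show k ^ 2 * Real.sqrt (mu m ψ y) = Real.sqrt ((k ^ 2) ^ 2 * mu m ψ y) by
          rw [Real.sqrt_mul (by positivity), Real.sqrt_sq (by positivity)]]
        exact Real.sqrt_le_sqrt (hrat x0 hx0 y hyA)
      have h7 : 0 < Real.sqrt X := Real.sqrt_pos.mpr hX
      have h8 : 0 ≤ Real.sqrt (mu m ψ y) := Real.sqrt_nonneg _
      have h9 : Real.sqrt (mu m ψ y) * Real.sqrt (mu m ψ y) = mu m ψ y :=
        Real.mul_self_sqrt (hmu y)
      have h10 : Real.sqrt X * Real.sqrt X = X := Real.mul_self_sqrt hX.le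
      have h11 : k ^ 2 * (mu m ψ y / X) * Real.sqrt X
          = Real.sqrt (mu m ψ y) * (k ^ 2 * Real.sqrt (mu m ψ y)) / Real.sqrt X := by
        rw [eq_div_iff h7.ne']
        calc k ^ 2 * (mu m ψ y / X) * Real.sqrt X * Real.sqrt X
            = k ^ 2 * (mu m ψ y / X) * (Real.sqrt X * Real.sqrt X) := by ring
          _ = k ^ 2 * (mu m ψ y / X) * X := by rw [h10]
          _ = k ^ 2 * mu m ψ y := by field_simp
          _ = k ^ 2 * (Real.sqrt (mu m ψ y) * Real.sqrt (mu m ψ y)) := by rw [h9]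
          _ = _ := by ring
      rw [h11, le_div_iff₀ h7]
      exact mul_le_mul_of_nonneg_left h6 h8
    have h6 : Real.sqrt (mu m ψ x) * Real.sqrt (mu m ψ y)
        ≤ k ^ 4 * mu m ψ x * (mu m ψ y / X) := by
      have hp : 0 ≤ k ^ 2 * (mu m ψ y / X) := by
        have := hmu y
        positivity
      calc Real.sqrt (mu m ψ x) * Real.sqrt (mu m ψ y)
          ≤ Real.sqrt (mu m ψ x) * (k ^ 2 * (mu m ψ y / X) * Real.sqrt X) :=
            mul_le_mul_of_nonneg_left h5 (Real.sqrt_nonneg _)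
        _ ≤ Real.sqrt (mu m ψ x) * (k ^ 2 * (mu m ψ y / X) * (k ^ 2 * Real.sqrt (mu m ψ x))) :=
            mul_le_mul_of_nonneg_left (mul_le_mul_of_nonneg_left h4 hp) (Real.sqrt_nonneg _)
        _ = k ^ 4 * (Real.sqrt (mu m ψ x) * Real.sqrt (mu m ψ x)) * (mu m ψ y / X) := by ring
        _ = k ^ 4 * mu m ψ x * (mu m ψ y / X) := by rw [Real.mul_self_sqrt (hmu x)]
    have h7 := mul_le_mul_of_nonneg_left h6 (ad_nonneg G x y)
    have h8 := div_le_div_of_nonneg_right h7 hr.le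
    refine h8.trans (le_of_eq ?_)
    ring
  have h4 : fl (om G m ψ r) C C ≤ k ^ 4 / r * 8 * ms (mu m ψ) C := by
    unfold fl ms
    rw [Finset.mul_sum]
    refine Finset.sum_le_sum (fun x hx => ?_)
    calc ∑ y ∈ C, om G m ψ r x y
        ≤ ∑ y ∈ C, k ^ 4 / r * mu m ψ x * (ad G x y * (mu m ψ y / X)) :=
          Finset.sum_le_sum (h3 x hx)
      _ = k ^ 4 / r * mu m ψ x * ∑ y ∈ C, ad G x y * (mu m ψ y / X) := by
          rw [Finset.mul_sum]
      _ ≤ k ^ 4 / r * mu m ψ x * 8 :=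
          mul_le_mul_of_nonneg_left (hCd x hx).le (by have := hmu x; positivity)
      _ = k ^ 4 / r * 8 * mu m ψ x := by ring
  have h5 : ms (mu m ψ) C ≤ ms (mu m ψ) A :=
    Finset.sum_le_sum_of_subset_of_nonneg hCA (fun x _ _ => hmu x)
  have h6 : k ^ 4 / r * 8 * ms (mu m ψ) C ≤ k ^ 4 / r * 8 * ms (mu m ψ) A :=
    mul_le_mul_of_nonneg_left h5 (by positivity)
  have h7 : k ^ 4 / r * 8 < κ := by
    rw [show k ^ 4 / r * 8 = 8 * k ^ 4 / r by ring, div_lt_iff₀ hr]
    exact hκ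
  have h8 := mul_lt_mul_of_pos_right h7 hA
  linarith

/-- one class of the splitting -/
lemma split_class (hH : ST_HARD) (hR : ST_REV) (hCo : ST_CORE) (hS : ST_SUP) (ε : ℝ) (hε : 0 < ε)
    (hε1 : ε < 1 / 4)
    (hSet : ∀ (V : Type) [Fintype V] (ω : V → V → ℝ) (μ g h : V → ℝ) (q : ℝ), Ker ω μ →
      (∀ x, 0 ≤ g x) → (∀ x, g x ≤ 1) → (∀ x, 0 ≤ h x) →
      ∑ x, μ x * g x * h x ^ 2 = 1 →
      ∑ x, μ x * g x * h x ^ 2 * (g x - 1 / 2) ^ 2 ≤ ε →
      1 / 2 - ε ≤ qf ω (fun x => g x * h x) →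
      1 < q → (∀ x, ∑ y ∈ univ.filter (fun y => q * μ y < μ x), ω x y ≤ μ x / 100) →
      ∃ D : Finset V, 0 < ms μ D ∧ (∀ x ∈ D, 0 < μ x) ∧ (∀ x ∈ D, 1 / 4 ≤ g x ∧ g x ≤ 3 / 4) ∧
        (∀ x ∈ D, ∀ y ∈ D, μ x ≤ q ^ 2 * μ y) ∧ ms μ D ≤ 30 * fl ω D D)
    (l : ℝ) (hl : l = (1 / 4920) ^ 2 / 2)
    (V : Type) [Fintype V] (G : SimpleGraph V) (d r : ℝ) (m ψ g : V → ℝ) (hG : Her G)
    (hdeg : ∀ x, ∑ y, ad G x y ≤ d) (hd : 1 ≤ d) (hm : ∀ x, 0 ≤ m x) (hm1 : ∀ x, m x ≤ 1)
    (hψ : ∀ x, 0 < ψ x) (hs : ∀ x, ∑ y, ad G x y * (m y * ψ y) ≤ r * ψ x)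
    (hr : 0 < r) (hrd : r ≤ d) (hC : 16 * 100 ^ 4 / l * d ^ 4 ≤ r ^ 5)
    (hB : Bal (om G m ψ r) (mu m ψ) l g) :
    Sup G (fun x => m x * g x) ((1 - 2 * l / (l + 2) * ε) / 2 * r) := by
  have hl0 : 0 < l := by
    rw [hl]
    norm_num
  have hl1 : l < 1 := by
    rw [hl]
    norm_num
  set c : ℝ := 2 * l / (l + 2) * ε with hc
  have hc0 : 0 < c := by
    rw [hc]
    positivity
  have hcε : c ≤ ε := by
    have h1 : 2 * l / (l + 2) ≤ 1 := by
      rw [div_le_one (by linarith)]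
      linarith
    calc c ≤ 1 * ε := mul_le_mul_of_nonneg_right h1 hε.le
      _ = ε := one_mul ε
  have hK := ker_om G m ψ r hr hm hψ hs
  have hf0 : ∀ x, 0 ≤ m x * g x := fun x => mul_nonneg (hm x) (hB.nn x)
  refine hS V G (fun x => m x * g x) ((1 / 2 - c) * r) ((1 - c) / 2 * r) hf0 ?_ ?_ ?_
  · have : 0 < (1 - c) / 2 := by linarith
    positivity
  · exact mul_lt_mul_of_pos_right (by linarith) hr
  intro w hw0 hwf
  by_contra hcon
  push Not at hcon
  set N : ℝ := ∑ x, w x ^ 2 with hN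
  have hN0 : 0 ≤ N := Finset.sum_nonneg (fun x _ => sq_nonneg _)
  have hN1 : 0 < N := by
    rcases hN0.eq_or_lt with h | h
    · exfalso
      have h1 : ∀ x, w x = 0 := by
        intro x
        have h2 := (Finset.sum_eq_zero_iff_of_nonneg (fun x _ => sq_nonneg (w x))).mp h.symm x
          (Finset.mem_univ x)
        exact pow_eq_zero_iff (two_ne_zero) |>.mp h2
      have h2 : ∑ x, ∑ y, ad G x y * ((Real.sqrt (m x * g x) * w x)
          * (Real.sqrt (m y * g y) * w y)) = 0 := by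
        refine Finset.sum_eq_zero (fun x _ => Finset.sum_eq_zero (fun y _ => ?_))
        rw [h1 x]
        ring
      rw [← h, h2] at hcon
      linarith
    · exact h
  have hsN : 0 < Real.sqrt N := Real.sqrt_pos.mpr hN1
  set h : V → ℝ := fun x => w x / (Real.sqrt (m x * g x) * ψ x) / Real.sqrt N with hh
  have hh0 : ∀ x, 0 ≤ h x := by
    intro x
    have h1 := hw0 x
    have h2 := (hψ x).le
    simp only [hh]
    positivity
  -- the two identities
  have e1 : ∀ x, mu m ψ x * g x * h x ^ 2 = w x ^ 2 / N := by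
    intro x
    simp only [hh, mu]
    have hNN : Real.sqrt N ^ 2 = N := Real.sq_sqrt hN1.le
    rcases (hf0 x).eq_or_lt with hz | hz
    · rw [hwf x hz.symm]
      simp
    · have h1 : Real.sqrt (m x * g x) ^ 2 = m x * g x := Real.sq_sqrt hz.le
      have h2 := (hψ x).ne'
      rw [div_pow, div_pow, mul_pow, h1, hNN]
      have h3 : m x * g x ≠ 0 := hz.ne'
      have h4 : m x ≠ 0 := left_ne_zero_of_mul h3
      have h5 : g x ≠ 0 := right_ne_zero_of_mul h3
      field_simp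
  have e2 : ∀ x, m x * ψ x * (g x * h x) = Real.sqrt (m x * g x) * w x / Real.sqrt N := by
    intro x
    simp only [hh]
    rcases (hf0 x).eq_or_lt with hz | hz
    · rw [hwf x hz.symm]
      simp
    · have h1 : Real.sqrt (m x * g x) * Real.sqrt (m x * g x) = m x * g x :=
        Real.mul_self_sqrt hz.le
      have h2 := (hψ x).ne'
      have h3 : Real.sqrt (m x * g x) ≠ 0 := (Real.sqrt_pos.mpr hz).ne'
      have h4 : m x * ψ x * (g x * (w x / (Real.sqrt (m x * g x) * ψ x) / Real.sqrt N))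
          = (m x * g x) * w x / (Real.sqrt (m x * g x)) / Real.sqrt N := by
        field_simp
      rw [h4]
      congr 1
      rw [div_eq_iff h3]
      calc m x * g x * w x = (Real.sqrt (m x * g x) * Real.sqrt (m x * g x)) * w x := by rw [h1]
        _ = _ := by ring
  have e3 : ∑ x, mu m ψ x * g x * h x ^ 2 = 1 := by
    rw [Finset.sum_congr rfl (fun x _ => e1 x), ← Finset.sum_div]
    exact div_self hN1.ne'
  have e4 : qf (om G m ψ r) (fun x => g x * h x)
      = (∑ x, ∑ y, ad G x y * ((Real.sqrt (m x * g x) * w x)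
          * (Real.sqrt (m y * g y) * w y))) / (r * N) := by
    unfold qf
    rw [Finset.sum_div]
    refine Finset.sum_congr rfl (fun x _ => ?_)
    rw [Finset.sum_div]
    refine Finset.sum_congr rfl (fun y _ => ?_)
    have h1 : om G m ψ r x y * (g x * h x * (g y * h y))
        = ad G x y * ((m x * ψ x * (g x * h x)) * (m y * ψ y * (g y * h y))) / r := by
      unfold om
      ring
    rw [h1, e2 x, e2 y]
    have h2 : Real.sqrt N * Real.sqrt N = N := Real.mul_self_sqrt hN1.le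
    calc ad G x y * (Real.sqrt (m x * g x) * w x / Real.sqrt N
          * (Real.sqrt (m y * g y) * w y / Real.sqrt N)) / r
        = ad G x y * ((Real.sqrt (m x * g x) * w x) * (Real.sqrt (m y * g y) * w y))
          / (r * (Real.sqrt N * Real.sqrt N)) := by field_simp
      _ = _ := by rw [h2]
  have e5 : 1 / 2 - c ≤ qf (om G m ψ r) (fun x => g x * h x) := by
    rw [e4, le_div_iff₀ (by positivity)]
    calc (1 / 2 - c) * (r * N) = (1 / 2 - c) * r * N := by ring
      _ ≤ _ := hcon.le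
  have e6 := hR V (om G m ψ r) (mu m ψ) l g h hK hl0 hB hh0
  rw [e3] at e6
  have e7 : ∑ x, mu m ψ x * g x * h x ^ 2 * (g x - 1 / 2) ^ 2 ≤ ε := by
    have h1 : 2 * l / (l + 2) * (∑ x, mu m ψ x * g x * h x ^ 2 * (g x - 1 / 2) ^ 2) ≤ c := by
      linarith
    rw [hc] at h1
    exact le_of_mul_le_mul_left h1 (by positivity)
  have hdr : 1 ≤ d / r := (one_le_div hr).mpr hrd
  have hq : 1 < (100 * d / r) ^ 2 := by
    have h1 : 100 * d / r = 100 * (d / r) := by ring
    rw [h1]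
    nlinarith
  obtain ⟨D, hD0, hD1, hD2, hD3, hD4⟩ := hSet V (om G m ψ r) (mu m ψ) g h ((100 * d / r) ^ 2) hK
    hB.nn hB.le hh0 e3 e7 (by linarith) hq
    (fun x => ratio_om G m ψ d r hr (by linarith) hdeg hm hm1 hψ x)
  obtain ⟨A, hAD, hA0, hA1⟩ := hCo V (om G m ψ r) (mu m ψ) D l hK hD0 hD4 hl0.le (by rw [hl]) (by
    intro φ hφ1 hφ2
    have hle : ∀ x, |φ x / 4| ≤ 1 / 4 := by
      intro x
      rw [abs_div]
      have := hφ1 x
      rw [abs_of_pos (by norm_num : (0 : ℝ) < 4)]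
      linarith
    have h1 := hB.sec (fun x => φ x / 4) (by
      intro x
      by_cases hx : x ∈ D
      · exact (hle x).trans (hD2 x hx).1
      · simp only [hφ2 x hx, zero_div, abs_zero]
        exact hB.nn x) (by
      intro x
      by_cases hx : x ∈ D
      · have := (hD2 x hx).2
        have := hle x
        linarith
      · simp only [hφ2 x hx, zero_div, abs_zero]
        have := hB.le x
        linarith)
    have h2 : qf (om G m ψ r) (fun x => φ x / 4) = qf (om G m ψ r) φ / 16 := by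
      unfold qf
      rw [Finset.sum_div]
      refine Finset.sum_congr rfl (fun x _ => ?_)
      rw [Finset.sum_div]
      refine Finset.sum_congr rfl (fun y _ => ?_)
      ring
    have h3 : ∑ x, mu m ψ x * (φ x / 4) ^ 2 = (∑ x, mu m ψ x * φ x ^ 2) / 16 := by
      rw [Finset.sum_div]
      refine Finset.sum_congr rfl (fun x _ => ?_)
      ring
    rw [h2, h3] at h1
    linarith)
  refine core_false hH G m ψ d r l hG hr (by linarith) hm hm1 hψ A hA0
    (fun x hx => hD1 x (hAD hx)) (fun x hx y hy => hD3 x (hAD hx) y (hAD hy)) ?_ ?_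
  · have h1 : (100 * d / r) ^ 4 = 100 ^ 4 * d ^ 4 / r ^ 4 := by
      rw [div_pow, mul_pow]
    rw [h1]
    have hr4 : 0 < r ^ 4 := by positivity
    have hd4 : 0 < d ^ 4 := by positivity
    have h2 : 16 * 100 ^ 4 * d ^ 4 ≤ l * r ^ 5 := by
      have h3 := mul_le_mul_of_nonneg_left hC hl0.le
      have h4 : l * (16 * 100 ^ 4 / l * d ^ 4) = 16 * 100 ^ 4 * d ^ 4 := by
        field_simp
      linarith
    rw [show (8 : ℝ) * (100 ^ 4 * d ^ 4 / r ^ 4) = 8 * 100 ^ 4 * d ^ 4 / r ^ 4 by ring,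
      div_lt_iff₀ hr4]
    have h5 : l * r * r ^ 4 = l * r ^ 5 := by ring
    rw [h5]
    linarith
  · intro C hCA hCm
    have h1 := hA1 C hCA hCm
    rw [hl]
    exact h1

theorem st_split (hH : ST_HARD) (hM : ST_MIN) (hR : ST_REV) (hSet : ST_SET) (hCo : ST_CORE)
    (hS : ST_SUP) : ST_SPLIT := by
  obtain ⟨ε, hε, hε1, hSet⟩ := hSet
  set l : ℝ := (1 / 4920) ^ 2 / 2 with hl
  have hl0 : 0 < l := by
    rw [hl]
    norm_num
  have hl1 : l < 1 := by
    rw [hl]
    norm_num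
  have hc1 : 2 * l / (l + 2) ≤ 1 := by
    rw [div_le_one (by linarith)]
    linarith
  refine ⟨2 * l / (l + 2) * ε, 16 * 100 ^ 4 / l, by positivity, ?_, ?_, ?_⟩
  · calc 2 * l / (l + 2) * ε ≤ 1 * ε := mul_le_mul_of_nonneg_right hc1 hε.le
      _ < 1 := by linarith
  · rw [le_div_iff₀ hl0]
    linarith
  intro V _ G d r m hG hdeg hd hm hm1 hSup hr hrd hC
  obtain ⟨ψ, hψ, hs⟩ := hSup
  have hK := ker_om G m ψ r hr hm hψ hs
  obtain ⟨g, hB⟩ := hM V (om G m ψ r) (mu m ψ) l hK hl0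
  refine ⟨g, hB.nn, hB.le, ?_, ?_⟩
  · exact split_class hH hR hCo hS ε hε hε1 hSet l hl V G d r m ψ g hG hdeg hd hm hm1 hψ hs hr hrd
      hC hB
  · exact split_class hH hR hCo hS ε hε hε1 hSet l hl V G d r m ψ (fun x => 1 - g x) hG hdeg hd hm
      hm1 hψ hs hr hrd hC hB.compl

end

end Pool.Agent.Helper39.HR
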