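import Pool.Agent.Helper39.HR.Hard
import Pool.Agent.Helper39.HR.Rev
import Pool.Agent.Helper39.HR.Split
import Pool.Agent.Helper31.HR.Min
import Pool.Agent.Helper61.HR.Set
import Pool.Agent.Helper6.HR.Core
import Pool.Agent.Helper37.HR.Res
import Pool.Agent.Helper60.HR.Iter
import Pool.Agent.Helper84.HR.Round
import Pool.Agent.Helper9.HR.Main

/-!
# Assembly: graphs of maximum degree `d` with hereditary independence ratio `1/3` have chromatic
number at most `d^(1-ε)`
-/

namespace Pool.Agent.Helper39.HR

theorem main : ST_MAIN :=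
  Pool.Agent.Helper9.HR.main_of
    (Pool.Agent.Helper60.HR.st_iter
      (st_split st_hard Pool.Agent.Helper31.HR.st_min st_rev Pool.Agent.Helper61.HR.st_set
        Pool.Agent.Helper6.HR.st_core Pool.Agent.Helper37.HR.st_sup))
    Pool.Agent.Helper84.HR.st_round

end Pool.Agent.Helper39.HR
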