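import Pool.Agent.Helper39.HR.Stmts

/-!
# Module 1: the hard core lemma
-/

namespace Pool.Agent.Helper39.HR

open Finset
open scoped Classical

noncomputable section

variable {V : Type}

/-- hard core partition function -/
def Zf (G : SimpleGraph V) (w : V → ℝ) (C : Finset V) : ℝ :=
  ∑ I ∈ C.powerset.filter (fun I : Finset V => G.IsIndepSet (I : Set V)), ∏ x ∈ I, w x

lemma Zf_le_prod (G : SimpleGraph V) (w : V → ℝ) (C : Finset V) (hw : ∀ x ∈ C, 0 ≤ w x) :
    Zf G w C ≤ ∏ x ∈ C, (1 + w x) := by
  rw [Finset.prod_one_add]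
  unfold Zf
  apply Finset.sum_le_sum_of_subset_of_nonneg (Finset.filter_subset _ _)
  intro I hI _
  exact Finset.prod_nonneg (fun x hx => hw x (Finset.mem_powerset.mp hI hx))

lemma Zf_rec (G : SimpleGraph V) (w : V → ℝ) (C : Finset V) (x : V) (hx : x ∈ C) :
    Zf G w C = Zf G w (C.erase x)
      + w x * Zf G w ((C.erase x).filter (fun y => ¬ G.Adj x y)) := by
  unfold Zf
  rw [← Finset.sum_filter_not_add_sum_filter
    (C.powerset.filter (fun I : Finset V => G.IsIndepSet (I : Set V))) (fun I => x ∈ I)]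
  congr 1
  · apply Finset.sum_congr _ (fun _ _ => rfl)
    ext I
    simp only [Finset.mem_filter, Finset.mem_powerset]
    constructor
    · rintro ⟨⟨h1, h2⟩, h3⟩
      refine ⟨?_, h2⟩
      intro y hy
      rw [Finset.mem_erase]
      refine ⟨?_, h1 hy⟩
      rintro rfl
      exact h3 hy
    · rintro ⟨h1, h2⟩
      refine ⟨⟨h1.trans (Finset.erase_subset _ _), h2⟩, ?_⟩
      intro h3
      exact (Finset.mem_erase.mp (h1 h3)).1 rfl
  · rw [Finset.mul_sum]
    refine Finset.sum_nbij' (fun I => I.erase x) (fun J => insert x J) ?_ ?_ ?_ ?_ ?_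
    · intro I hI
      simp only [Finset.mem_filter, Finset.mem_powerset] at hI ⊢
      obtain ⟨⟨h1, h2⟩, h3⟩ := hI
      refine ⟨?_, ?_⟩
      · intro y hy
        rw [Finset.mem_erase] at hy
        rw [Finset.mem_filter, Finset.mem_erase]
        refine ⟨⟨hy.1, h1 hy.2⟩, ?_⟩
        intro hadj
        exact h2 (Finset.mem_coe.mpr h3) (Finset.mem_coe.mpr hy.2) (Ne.symm hy.1) hadj
      · intro a ha b hb hab
        exact h2 (Finset.mem_coe.mpr (Finset.mem_of_mem_erase (Finset.mem_coe.mp ha)))
          (Finset.mem_coe.mpr (Finset.mem_of_mem_erase (Finset.mem_coe.mp hb))) hab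
    · intro J hJ
      simp only [Finset.mem_filter, Finset.mem_powerset] at hJ ⊢
      obtain ⟨h1, h2⟩ := hJ
      refine ⟨⟨?_, ?_⟩, Finset.mem_insert_self _ _⟩
      · intro y hy
        rcases Finset.mem_insert.mp hy with h | h
        · rw [h]
          exact hx
        · exact (Finset.mem_erase.mp (Finset.mem_filter.mp (h1 h)).1).2
      · intro a ha b hb hab
        rcases Finset.mem_insert.mp (Finset.mem_coe.mp ha) with h | h
        · rcases Finset.mem_insert.mp (Finset.mem_coe.mp hb) with h' | h'
          · exact absurd (h.trans h'.symm) hab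
          · rw [h]
            exact (Finset.mem_filter.mp (h1 h')).2
        · rcases Finset.mem_insert.mp (Finset.mem_coe.mp hb) with h' | h'
          · rw [h']
            intro hadj
            exact (Finset.mem_filter.mp (h1 h)).2 hadj.symm
          · exact h2 (Finset.mem_coe.mpr h) (Finset.mem_coe.mpr h') hab
    · intro I hI
      simp only [Finset.mem_filter, Finset.mem_powerset] at hI
      exact Finset.insert_erase hI.2
    · intro J hJ
      simp only [Finset.mem_filter, Finset.mem_powerset] at hJ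
      apply Finset.erase_insert
      intro h
      exact (Finset.mem_erase.mp (Finset.mem_filter.mp (hJ.1 h)).1).1 rfl
    · intro I hI
      simp only [Finset.mem_filter, Finset.mem_powerset] at hI
      exact (Finset.mul_prod_erase I w hI.2).symm

/-- upper bound for the partition function when large sets have a vertex of degree `≥ 8` -/
lemma Zf_le (G : SimpleGraph V) (A : Finset V) (p : V → ℝ) (N : ℝ) (hN : 0 ≤ N)
    (hp : ∀ x ∈ A, 0 ≤ p x)
    (hbad : ∀ C ⊆ A, N / 41 ≤ ∑ x ∈ C, p x → ∃ x ∈ C, 8 ≤ ∑ y ∈ C, ad G x y * p y) :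
    ∀ (n : ℕ) (C : Finset V), C.card = n → C ⊆ A →
      Zf G (fun x => Real.exp 3 * p x) C
        ≤ Real.exp (Real.exp 3 * (N / 41) + (∑ x ∈ C, p x) / 2) := by
  intro n
  induction n using Nat.strong_induction_on with
  | _ n ih =>
  intro C hCn hCA
  have hz : 0 < Real.exp 3 := Real.exp_pos _
  have hs0 : 0 ≤ ∑ x ∈ C, p x := Finset.sum_nonneg (fun x hx => hp x (hCA hx))
  by_cases hsmall : ∑ x ∈ C, p x < N / 41
  · calc Zf G (fun x => Real.exp 3 * p x) C ≤ ∏ x ∈ C, (1 + Real.exp 3 * p x) :=
          Zf_le_prod G _ C (fun x hx => mul_nonneg hz.le (hp x (hCA hx)))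
      _ ≤ ∏ x ∈ C, Real.exp (Real.exp 3 * p x) := by
          apply Finset.prod_le_prod
          · intro x hx
            have := mul_nonneg hz.le (hp x (hCA hx))
            linarith
          · intro x _
            have := Real.add_one_le_exp (Real.exp 3 * p x)
            linarith
      _ = Real.exp (Real.exp 3 * ∑ x ∈ C, p x) := by
          rw [← Real.exp_sum, Finset.mul_sum]
      _ ≤ Real.exp (Real.exp 3 * (N / 41) + (∑ x ∈ C, p x) / 2) := by
          apply Real.exp_le_exp.mpr
          have := mul_le_mul_of_nonneg_left hsmall.le hz.le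
          linarith
  · obtain ⟨x, hx, hdeg⟩ := hbad C hCA (not_lt.mp hsmall)
    set C1 := C.erase x with hC1
    set C2 := (C.erase x).filter (fun y => ¬ G.Adj x y) with hC2
    have hpx : 0 ≤ p x := hp x (hCA hx)
    have hcard1 : C1.card < n := by
      rw [← hCn, hC1]
      exact Finset.card_erase_lt_of_mem hx
    have hcard2 : C2.card < n := lt_of_le_of_lt (Finset.card_filter_le _ _) hcard1
    have hsub1 : C1 ⊆ A := (Finset.erase_subset _ _).trans hCA
    have hsub2 : C2 ⊆ A := (Finset.filter_subset _ _).trans hsub1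
    have e1 := ih _ hcard1 C1 rfl hsub1
    have e2 := ih _ hcard2 C2 rfl hsub2
    have s1 : ∑ y ∈ C, p y = p x + ∑ y ∈ C1, p y := (Finset.add_sum_erase C p hx).symm
    have s2 : ∑ y ∈ C1, p y = ∑ y ∈ C1.filter (fun y => G.Adj x y), p y + ∑ y ∈ C2, p y :=
      (Finset.sum_filter_add_sum_filter_not C1 (fun y => G.Adj x y) p).symm
    have s3 : ∑ y ∈ C, ad G x y * p y = ∑ y ∈ C1.filter (fun y => G.Adj x y), p y := by
      rw [← Finset.add_sum_erase C _ hx, Finset.sum_filter]
      have h0 : ad G x x = 0 := by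
        unfold ad
        simp
      rw [h0, zero_mul, zero_add]
      apply Finset.sum_congr rfl
      intro y _
      unfold ad
      by_cases h : G.Adj x y
      · simp [h]
      · simp [h]
    have s4 : ∑ y ∈ C2, p y ≤ ∑ y ∈ C1, p y - 8 := by
      rw [s3] at hdeg
      linarith
    rw [Zf_rec G _ C x hx]
    set s := ∑ y ∈ C1, p y with hs
    have e3 : Zf G (fun x => Real.exp 3 * p x) C2
        ≤ Real.exp (Real.exp 3 * (N / 41) + (s - 8) / 2) :=
      e2.trans (Real.exp_le_exp.mpr (by linarith))
    have e4 : Real.exp 3 * p x * Zf G (fun x => Real.exp 3 * p x) C2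
        ≤ Real.exp 3 * p x * Real.exp (Real.exp 3 * (N / 41) + (s - 8) / 2) :=
      mul_le_mul_of_nonneg_left e3 (mul_nonneg hz.le hpx)
    have e5 : Real.exp (Real.exp 3 * (N / 41) + (s - 8) / 2)
        = Real.exp (Real.exp 3 * (N / 41) + s / 2) * Real.exp (-4) := by
      rw [← Real.exp_add]
      congr 1
      ring
    have e6 : Real.exp 3 * Real.exp (-4) ≤ 1 / 2 := by
      rw [← Real.exp_add]
      have h1 : (3 : ℝ) + -4 = -1 := by norm_num
      rw [h1, Real.exp_neg]
      have h2 : (2 : ℝ) ≤ Real.exp 1 := by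
        have := Real.add_one_le_exp (1 : ℝ)
        linarith
      rw [inv_eq_one_div]
      exact div_le_div_of_nonneg_left (by norm_num) (by norm_num) h2
    have e7 : 1 + p x / 2 ≤ Real.exp (p x / 2) := by
      have := Real.add_one_le_exp (p x / 2)
      linarith
    have e8 : Real.exp (Real.exp 3 * (N / 41) + (∑ y ∈ C, p y) / 2)
        = Real.exp (Real.exp 3 * (N / 41) + s / 2) * Real.exp (p x / 2) := by
      rw [← Real.exp_add, s1]
      congr 1
      ring
    rw [e8]
    set E := Real.exp (Real.exp 3 * (N / 41) + s / 2) with hE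
    have hE0 : 0 < E := Real.exp_pos _
    rw [e5] at e4
    have e9 : Real.exp 3 * p x * (E * Real.exp (-4)) ≤ E * (p x / 2) := by
      have h1 : Real.exp 3 * p x * (E * Real.exp (-4))
          = E * (p x * (Real.exp 3 * Real.exp (-4))) := by ring
      rw [h1]
      apply mul_le_mul_of_nonneg_left _ hE0.le
      have := mul_le_mul_of_nonneg_left e6 hpx
      linarith
    have e10 : E * (1 + p x / 2) ≤ E * Real.exp (p x / 2) :=
      mul_le_mul_of_nonneg_left e7 hE0.le
    have e11 : E * (1 + p x / 2) = E + E * (p x / 2) := by ring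
    linarith

lemma exp_three_lt : Real.exp 3 < 41 / 2 := by
  have h1 := Real.exp_one_lt_d9
  have h2 : Real.exp 3 = Real.exp 1 ^ 3 := by
    rw [← Real.exp_nat_mul]
    norm_num
  have h0 : 0 < Real.exp 1 := Real.exp_pos _
  rw [h2]
  have h3 : Real.exp 1 ^ 3 < (2.7182818286 : ℝ) ^ 3 := by
    apply pow_lt_pow_left₀ h1 h0.le
    norm_num
  have h4 : (2.7182818286 : ℝ) ^ 3 < 41 / 2 := by norm_num
  linarith

theorem st_hard : ST_HARD := by
  intro V _ G A p hHer hp hp1 hN
  by_contra hcon
  push Not at hcon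
  set N := ∑ x ∈ A, p x with hNdef
  have hbad : ∀ C ⊆ A, N / 41 ≤ ∑ x ∈ C, p x → ∃ x ∈ C, 8 ≤ ∑ y ∈ C, ad G x y * p y :=
    fun C hC h => hcon C hC h
  have hup := Zf_le G A p N hN.le hp hbad A.card A rfl (Finset.Subset.refl A)
  -- lower bound
  have hlow : Real.exp N ≤ Zf G (fun x => Real.exp 3 * p x) A := by
    -- product measure
    have h1 : Real.exp N ≤ ∑ S ∈ A.powerset, (∏ x ∈ S, (p x * Real.exp 1)) *
        ∏ x ∈ A \ S, (1 - p x) := by
      rw [← Finset.prod_add, hNdef, Real.exp_sum]
      apply Finset.prod_le_prod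
      · intro x _
        exact (Real.exp_pos _).le
      · intro x hx
        have hc := (convexOn_exp).2 (Set.mem_univ (0 : ℝ)) (Set.mem_univ (1 : ℝ))
          (by linarith [hp1 x hx] : 0 ≤ 1 - p x) (hp x hx) (by ring)
        simp only [smul_eq_mul, mul_zero, mul_one, zero_add, Real.exp_zero] at hc
        linarith
    have h2 : ∑ S ∈ A.powerset, (∏ x ∈ S, (p x * Real.exp 1)) * ∏ x ∈ A \ S, (1 - p x)
        ≤ ∑ S ∈ A.powerset, ∑ I ∈ A.powerset.filter (fun I : Finset V => G.IsIndepSet (I : Set V)),
          (∏ x ∈ I, Real.exp 3) * ((∏ x ∈ S, p x) *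
            ∏ x ∈ A \ S, (if x ∈ I then 0 else (1 - p x))) := by
      apply Finset.sum_le_sum
      intro S hS
      rw [Finset.mem_powerset] at hS
      obtain ⟨I, hIS, hI, hcard⟩ := hHer S
      have hnn : ∀ J ∈ A.powerset.filter (fun I : Finset V => G.IsIndepSet (I : Set V)),
          0 ≤ (∏ x ∈ J, Real.exp 3) * ((∏ x ∈ S, p x) *
            ∏ x ∈ A \ S, (if x ∈ J then 0 else (1 - p x))) := by
        intro J _
        apply mul_nonneg (Finset.prod_nonneg (fun _ _ => (Real.exp_pos _).le))
        apply mul_nonneg (Finset.prod_nonneg (fun x hx => hp x (hS hx)))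
        apply Finset.prod_nonneg
        intro x hx
        by_cases h : x ∈ J
        · simp [h]
        · simp only [h, if_false]
          linarith [hp1 x (Finset.mem_sdiff.mp hx).1]
      have hmem : I ∈ A.powerset.filter (fun I : Finset V => G.IsIndepSet (I : Set V)) := by
        rw [Finset.mem_filter, Finset.mem_powerset]
        exact ⟨hIS.trans hS, hI⟩
      refine le_trans ?_ (Finset.single_le_sum hnn hmem)
      have h3 : ∏ x ∈ A \ S, (if x ∈ I then 0 else (1 - p x)) = ∏ x ∈ A \ S, (1 - p x) := by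
        apply Finset.prod_congr rfl
        intro x hx
        have : x ∉ I := fun h => (Finset.mem_sdiff.mp hx).2 (hIS h)
        simp [this]
      rw [h3, Finset.prod_mul_distrib, Finset.prod_const, Finset.prod_const]
      have h4 : Real.exp 1 ^ S.card ≤ Real.exp 3 ^ I.card := by
        rw [← Real.exp_nat_mul, ← Real.exp_nat_mul]
        apply Real.exp_le_exp.mpr
        have : (S.card : ℝ) ≤ 3 * I.card := by exact_mod_cast hcard
        linarith
      have h5 : 0 ≤ (∏ x ∈ S, p x) * ∏ x ∈ A \ S, (1 - p x) := by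
        apply mul_nonneg (Finset.prod_nonneg (fun x hx => hp x (hS hx)))
        apply Finset.prod_nonneg
        intro x hx
        linarith [hp1 x (Finset.mem_sdiff.mp hx).1]
      have h6 := mul_le_mul_of_nonneg_right h4 h5
      linarith
    have h3 : ∑ S ∈ A.powerset, ∑ I ∈ A.powerset.filter (fun I : Finset V => G.IsIndepSet (I : Set V)),
          (∏ x ∈ I, Real.exp 3) * ((∏ x ∈ S, p x) *
            ∏ x ∈ A \ S, (if x ∈ I then 0 else (1 - p x)))
        = Zf G (fun x => Real.exp 3 * p x) A := by
      rw [Finset.sum_comm]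
      unfold Zf
      apply Finset.sum_congr rfl
      intro I hI
      rw [Finset.mem_filter, Finset.mem_powerset] at hI
      rw [← Finset.mul_sum, ← Finset.prod_add, Finset.prod_mul_distrib]
      congr 1
      have h4 : ∀ x ∈ A, (p x + if x ∈ I then 0 else (1 - p x)) = if x ∈ I then p x else 1 := by
        intro x _
        by_cases h : x ∈ I
        · simp [h]
        · simp [h]
      rw [Finset.prod_congr rfl h4, Finset.prod_ite, Finset.prod_const_one, mul_one]
      apply Finset.prod_congr _ (fun _ _ => rfl)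
      ext x
      rw [Finset.mem_filter]
      exact ⟨fun h => h.2, fun h => ⟨hI.1 h, h⟩⟩
    linarith
  have h3 := exp_three_lt
  have h4 : Real.exp 3 * (N / 41) + N / 2 < N := by
    have := mul_lt_mul_of_pos_right h3 (by positivity : (0 : ℝ) < N / 41)
    linarith
  have h5 := Real.exp_lt_exp.mpr h4
  linarith

end

end Pool.Agent.Helper39.HR
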