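import Pool.Agent.Helper39.HR.Defs

/-!
# Hereditary independence ratio 1/3: statements of the modules

Paper proof: /team-store/hr_helper39.md
-/

namespace Pool.Agent.Helper39.HR

open Finset
open scoped Classical

noncomputable section

/-- 1. hard core lemma: in a graph of hereditary ratio `1/3` every weight `p ≤ 1` has a large
subset of bounded weighted degree -/
def ST_HARD : Prop :=
  ∀ (V : Type) [Fintype V] (G : SimpleGraph V) (A : Finset V) (p : V → ℝ), Her G →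
    (∀ x ∈ A, 0 ≤ p x) → (∀ x ∈ A, p x ≤ 1) → 0 < ∑ x ∈ A, p x →
    ∃ C ⊆ A, (∑ x ∈ A, p x) / 41 ≤ ∑ x ∈ C, p x ∧ ∀ x ∈ C, ∑ y ∈ C, ad G x y * p y < 8

/-- 2. the minimiser -/
def ST_MIN : Prop :=
  ∀ (V : Type) [Fintype V] (ω : V → V → ℝ) (μ : V → ℝ) (l : ℝ), Ker ω μ → 0 < l →
    ∃ g : V → ℝ, Bal ω μ l g

/-- 3. reverse inequality: the class has norm at most `1/2`, with a gain off `g = 1/2` -/
def ST_REV : Prop :=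
  ∀ (V : Type) [Fintype V] (ω : V → V → ℝ) (μ : V → ℝ) (l : ℝ) (g h : V → ℝ), Ker ω μ → 0 < l →
    Bal ω μ l g → (∀ x, 0 ≤ h x) →
    qf ω (fun x => g x * h x) ≤ (1 / 2) * (∑ x, μ x * g x * h x ^ 2)
      - 2 * l / (l + 2) * (∑ x, μ x * g x * h x ^ 2 * (g x - 1 / 2) ^ 2)

/-- 4. a nearly critical class has a set of bounded ratio with large inner flow, where `g` is
between `1/4` and `3/4` -/
def ST_SET : Prop :=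
  ∃ ε : ℝ, 0 < ε ∧ ε < 1 / 4 ∧
    ∀ (V : Type) [Fintype V] (ω : V → V → ℝ) (μ g h : V → ℝ) (q : ℝ), Ker ω μ →
      (∀ x, 0 ≤ g x) → (∀ x, g x ≤ 1) → (∀ x, 0 ≤ h x) →
      ∑ x, μ x * g x * h x ^ 2 = 1 →
      ∑ x, μ x * g x * h x ^ 2 * (g x - 1 / 2) ^ 2 ≤ ε →
      1 / 2 - ε ≤ qf ω (fun x => g x * h x) →
      1 < q → (∀ x, ∑ y ∈ univ.filter (fun y => q * μ y < μ x), ω x y ≤ μ x / 100) →
      ∃ D : Finset V, 0 < ms μ D ∧ (∀ x ∈ D, 0 < μ x) ∧ (∀ x ∈ D, 1 / 4 ≤ g x ∧ g x ≤ 3 / 4) ∧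
        (∀ x ∈ D, ∀ y ∈ D, μ x ≤ q ^ 2 * μ y) ∧ ms μ D ≤ 30 * fl ω D D

/-- 5. the core: all large subsets have inner flow -/
def ST_CORE : Prop :=
  ∀ (V : Type) [Fintype V] (ω : V → V → ℝ) (μ : V → ℝ) (D : Finset V) (l : ℝ), Ker ω μ →
    0 < ms μ D → ms μ D ≤ 30 * fl ω D D → 0 ≤ l → l ≤ (1 / 4920) ^ 2 / 2 →
    (∀ φ : V → ℝ, (∀ x, |φ x| ≤ 1) → (∀ x, x ∉ D → φ x = 0) →
      -(l * ∑ x, μ x * φ x ^ 2) ≤ qf ω φ) →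
    ∃ A ⊆ D, 0 < ms μ A ∧ ∀ C ⊆ A, ms μ A ≤ 41 * ms μ C →
      (1 / 4920) ^ 2 / 2 * ms μ A ≤ fl ω C C

/-- 6. a nonnegative symmetric matrix of norm `≤ s < t` has a positive supersolution -/
def ST_RES : Prop :=
  ∀ (V : Type) [Fintype V] (A : V → V → ℝ) (s t : ℝ), (∀ x y, A x y = A y x) →
    (∀ x y, 0 ≤ A x y) → s < t →
    (∀ w : V → ℝ, ∑ x, ∑ y, A x y * (w x * w y) ≤ s * ∑ x, w x ^ 2) →
    ∃ a : V → ℝ, (∀ x, 0 < a x) ∧ ∀ x, ∑ y, A x y * a y ≤ t * a x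

/-- 7. the same for masses -/
def ST_SUP : Prop :=
  ∀ (V : Type) [Fintype V] (G : SimpleGraph V) (f : V → ℝ) (s t : ℝ), (∀ x, 0 ≤ f x) →
    0 < t → s < t →
    (∀ w : V → ℝ, (∀ x, 0 ≤ w x) → (∀ x, f x = 0 → w x = 0) →
      ∑ x, ∑ y, ad G x y * ((Real.sqrt (f x) * w x) * (Real.sqrt (f y) * w y))
        ≤ s * ∑ x, w x ^ 2) →
    Sup G f t

/-- 8. splitting with a gain -/
def ST_SPLIT : Prop :=
  ∃ c C : ℝ, 0 < c ∧ c < 1 ∧ 1 ≤ C ∧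
    ∀ (V : Type) [Fintype V] (G : SimpleGraph V) (d r : ℝ) (m : V → ℝ), Her G →
      (∀ x, ∑ y, ad G x y ≤ d) → 1 ≤ d → (∀ x, 0 ≤ m x) → (∀ x, m x ≤ 1) → Sup G m r →
      0 < r → r ≤ d → C * d ^ 4 ≤ r ^ 5 →
      ∃ g : V → ℝ, (∀ x, 0 ≤ g x) ∧ (∀ x, g x ≤ 1) ∧
        Sup G (fun x => m x * g x) ((1 - c) / 2 * r) ∧
        Sup G (fun x => m x * (1 - g x)) ((1 - c) / 2 * r)

/-- 9. iteration -/
def ST_ITER : Prop :=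
  ∃ c C : ℝ, 0 < c ∧ c < 1 ∧ 1 ≤ C ∧
    ∀ (V : Type) [Fintype V] (G : SimpleGraph V) (d : ℝ) (J : ℕ), Her G →
      (∀ x, ∑ y, ad G x y ≤ d) → 1 ≤ d → C * d ^ 4 ≤ (((1 - c) / 2) ^ J * d) ^ 5 →
      ∃ f : Fin (2 ^ J) → V → ℝ, (∀ i x, 0 ≤ f i x) ∧ (∀ x, ∑ i, f i x = 1) ∧
        ∀ i, Sup G (f i) (((1 - c) / 2) ^ J * d)

/-- 10. rounding -/
def ST_ROUND : Prop :=
  ∀ (V : Type) [Fintype V] (G : SimpleGraph V) (K M : ℕ) (d R : ℝ) (f : Fin K → V → ℝ),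
    (∀ x, ∑ y, ad G x y ≤ d) → 1 ≤ d → 0 ≤ R → 3 * R ≤ M →
    (K : ℝ) * Real.exp (-R) * (6 * d ^ 2) ≤ 1 →
    (∀ i x, 0 ≤ f i x) → (∀ x, ∑ i, f i x = 1) → (∀ i, Sup G (f i) R) →
    G.Colorable (K * (M + 1))

/-- 11. the main theorem (literally `S09983`) -/
def ST_MAIN : Prop :=
  ∃ ε : ℝ, 0 < ε ∧ ∃ d₀ : ℕ,
    ∀ (V : Type) [Fintype V] (G : SimpleGraph V) [DecidableRel G.Adj],
      d₀ ≤ G.maxDegree →
      (∀ S : Finset V, ∃ I : Finset V,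
          I ⊆ S ∧ G.IsIndepSet (I : Set V) ∧ S.card ≤ 3 * I.card) →
      G.Colorable ⌊((G.maxDegree : ℝ) ^ (1 - ε))⌋₊

end

end Pool.Agent.Helper39.HR
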